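import Mathlib
import Pool.Agent.ATB.Stmts3
import Pool.Agent.Helper49_ATB.GN2

/-!
# ATB, module GN3 (helper9, adapted from helper49's GN2): families of columns, refined
-/

set_option autoImplicit false

namespace Pool.Agent.ATB.H9

theorem bet_bound (p : ℕ) (hp : 1 ≤ p) (w f : ℤ) (hf : 0 ≤ f) (hfw : f ≤ w) :
    w - bet p (w - f) w ≤ w - f ∧ w - bet p (w - f) w ≤ p * w - (2 * p - 1) * f := by
  have hp' : (0 : ℤ) ≤ (p : ℤ) - 1 := by
    have : (1 : ℤ) ≤ (p : ℤ) := by exact_mod_cast hp
    linarith
  have hw : 0 ≤ w := hf.trans hfw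
  have h1 := mul_nonneg hp' hw
  unfold bet
  split_ifs with h2 h3
  · have h4 : f = 0 := by linarith
    subst h4
    constructor <;> linarith
  · have h5 : 0 ≤ ((p : ℤ) - 1) * (w - 2 * f) := mul_nonneg hp' (by linarith)
    constructor <;> linarith
  · have h5 : 0 ≤ ((p : ℤ) - 1) * (2 * f - w) := mul_nonneg hp' (by linarith)
    constructor <;> linarith

theorem gn3 (van : VAN2Stmt) (lox : LOXStmt) (pix : PIXStmt) (pco : PCOStmt) : GN3Stmt := by
  intro p hp K _ hc n ι _ Y hY
  classical
  have hp1 : 1 ≤ p := (Fact.out : p.Prime).one_le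
  by_cases h : ∀ U D : Multiset (Fin n → K), U + D = (Finset.univ : Finset ι).val.map (fun c r => Y r c) →
      U.card = (p - 1) * n → lam p (prodm U) = 0
  · exfalso
    obtain ⟨W, b, hW, hb, h2⟩ := lox p K n ((Finset.univ : Finset ι).val.map (fun c r => Y r c)) h
    refine h2 (van p K n W _ (b - Module.finrank K W) _ (fun z hz => (mem_ins.1 hz).2) ?_).2
    intro _ F hFW
    have hw : Module.finrank K W < n := by
      have h3 := Submodule.finrank_lt hW
      rwa [Module.finrank_fin_fun] at h3
    have hF : F ≠ ⊤ := fun h3 => hW (top_le_iff.1 (h3 ▸ hFW))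
    have hfw : Module.finrank K F ≤ Module.finrank K W := Submodule.finrank_mono hFW
    rw [ins_ins hFW]
    have hcard := congrArg Multiset.card
      (ins_add_out ((Finset.univ : Finset ι).val.map (fun c r => Y r c)) F)
    rw [Multiset.card_add, H49G.card_out] at hcard
    obtain ⟨h4, h5⟩ := bet_bound p hp1 (Module.finrank K W) (Module.finrank K F) (by positivity)
      (by exact_mod_cast hfw)
    have hcz : ((ins ((Finset.univ : Finset ι).val.map (fun c r => Y r c)) F).card : ℤ) +
        (Nat.card {c // (fun r => Y r c) ∉ F} : ℤ) =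
          (((Finset.univ : Finset ι).val.map (fun c r => Y r c)).card : ℤ) := by
      exact_mod_cast hcard
    have hwz : (Module.finrank K W : ℤ) + 1 ≤ n := by exact_mod_cast hw
    have hpz : (1 : ℤ) ≤ (p : ℤ) := by exact_mod_cast hp1
    have h6 : 0 ≤ (p : ℤ) * ((n : ℤ) - 1 - Module.finrank K W) :=
      mul_nonneg (by linarith) (by linarith)
    rcases hY F hF with h3 | h3
    · have h7 : (((2 * p - 1) * n : ℕ) : ℤ) ≤
          ((Nat.card {c // (fun r => Y r c) ∉ F} + (2 * p - 1) * Module.finrank K F + p : ℕ) : ℤ) := by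
        exact_mod_cast h3
      push_cast [Nat.cast_sub (show 1 ≤ 2 * p by omega)] at h7
      linarith
    · have h7 : ((p * n : ℕ) : ℤ) ≤
          ((Nat.card {c // (fun r => Y r c) ∉ F} + Module.finrank K F + 1 : ℕ) : ℤ) := by
        exact_mod_cast h3
      push_cast at h7
      linarith
  · push Not at h
    obtain ⟨U, D, h1, h2, h3⟩ := h
    obtain ⟨S, hS⟩ := pix ι (Fin n → K) (fun c r => Y r c) U D h1
    have hcard : S.card = (p - 1) * n := by
      rw [← h2, hS, Multiset.card_map]
      rfl
    have e : Fin (p - 1) × Fin n ≃ S := Fintype.equivOfCardEq (by simp [hcard])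
    refine ⟨fun c => (e c : ι), Subtype.val_injective.comp e.injective, ?_⟩
    apply pco p K n (Matrix.of fun r c => Y r (e c))
    rw [hS] at h3
    have h4 := H49G.map_equiv S e (fun (c : ι) (r : Fin n) => Y r c)
    rw [← h4] at h3
    exact h3

end Pool.Agent.ATB.H9
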